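import Pool.Agent.Q169.PSMain

/-!
# `MP_5d95cf_gt`, Q1: Poisson homeomorphisms preserve the symplectic leaves

For every Poisson manifold `M`, every Poisson homeomorphism `φ` of `M` and every symplectic leaf
`L`, the image `φ (L)` is a symplectic leaf and `φ|_L : L → φ (L)` is a homeomorphism for the leaf
topologies.

The definitions (`PoissonBracket`, `IsPoissonDiffeo`, `IsPoissonHomeo`, `IntegralManifold`,
`SymplecticFoliation`, `MapsHomeomorphically`) are in `Pool/Agent/Q169/PSDefs.lean`.
-/

set_option autoImplicit false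

open Set
open scoped Manifold ContDiff
open Q169.Poisson

namespace Pool.Agent.Results.MP_5d95cf_gt.LeavesPreserved

universe u v

theorem result {n : ℕ} {M : Type u} [TopologicalSpace M]
    [ChartedSpace (EuclideanSpace ℝ (Fin n)) M] [IsManifold (𝓡 n) ∞ M] [T2Space M]
    [SigmaCompactSpace M] (P : PoissonBracket n M) (F : SymplecticFoliation.{u, v} P)
    (φ : M ≃ₜ M) (hφ : IsPoissonHomeo P φ) (i : F.ι) :
    ∃ j, MapsHomeomorphically φ (F.leaf i) (F.leaf j) :=
  main F hφ i

end Pool.Agent.Results.MP_5d95cf_gt.LeavesPreserved
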